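import Pool.Agent.Helper2.TR.Move
import Pool.Agent.Helper98.TR.Low

/-!
Project TR (MP_b8862a_ag): four Hodge numbers `s, h, h, s` in any degrees, `s` an odd prime.
-/

set_option linter.unusedSectionVars false

open Matrix Module

attribute [local instance 100] LieRing.ofAssociativeRing

namespace MH

variable {n : Type*} [Fintype n] [DecidableEq n]

/-- the new eigenvalues -/
noncomputable def f4 (A B μ : ℝ) : ℝ :=
  if μ = A then 3 / 2 else if μ = B then 1 / 2 else if μ = -B then -(1 / 2) else if μ = -A then -(3 / 2) else 0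

section f4

variable {A B : ℝ} (hB : 0 < B) (hBA : B < A)
include hB hBA

theorem f4_A : f4 A B A = 3 / 2 := if_pos rfl

theorem f4_B : f4 A B B = 1 / 2 := by
  unfold f4
  rw [if_neg (ne_of_lt hBA), if_pos rfl]

theorem f4_nB : f4 A B (-B) = -(1 / 2) := by
  unfold f4
  rw [if_neg (by intro h; linarith), if_neg (by intro h; linarith), if_pos rfl]

theorem f4_nA : f4 A B (-A) = -(3 / 2) := by
  unfold f4
  rw [if_neg (by intro h; linarith), if_neg (by intro h; linarith), if_neg (by intro h; linarith), if_pos rfl]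

end f4

/-- The theorem on four eigenvalues for matrices, from the theorem on Lie subalgebras of endomorphisms. -/
theorem four_of2 {s k : ℕ} (core : ∀ ω : LinearMap.BilinForm ℂ (n → ℂ), ω.IsAlt → ω.Nondegenerate →
      ∀ L : LieSubalgebra ℂ (Module.End ℂ (n → ℂ)), LieAlgebra.IsSimple ℂ L →
      (∀ W : Submodule ℂ (n → ℂ), (∀ x ∈ L, ∀ u ∈ W, x u ∈ W) → W = ⊥ ∨ W = ⊤) →
      (∀ x ∈ L, ∀ u v, ω (x u) v = -ω u (x v)) →
      ∀ y ∈ L, (⨆ c : ℂ, Module.End.eigenspace y c) = ⊤ →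
        (∀ c : ℂ, Module.End.eigenspace y c ≠ ⊥ → TR.Four c) →
        finrank ℂ (Module.End.eigenspace y (3 / 2)) = s → finrank ℂ (Module.End.eigenspace y (1 / 2)) = k →
        ∀ x : Module.End ℂ (n → ℂ), (∀ u v, ω (x u) v = -ω u (x v)) → x ∈ L)
    {Q' Qi : Matrix n n ℂ} (hQs : Q'ᵀ = -Q') (hQ1 : Q' * Qi = 1) (hQ2 : Qi * Q' = 1)
    {L : Submodule ℂ (Matrix n n ℂ)} (hbr : ∀ X ∈ L, ∀ Y ∈ L, X * Y - Y * X ∈ L)
    (hirr : ∀ W : Submodule ℂ (n → ℂ), (∀ X ∈ L, ∀ w ∈ W, X *ᵥ w ∈ W) → W = ⊥ ∨ W = ⊤)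
    (hsk : ∀ X ∈ L, Xᵀ * Q' + Q' * X = 0) (hsmp : Smp L) {h : Matrix n n ℂ} (hh : h ∈ L)
    {E : ℝ → Matrix n n ℂ} {Λ : Finset ℝ} (hE : SD h E Λ) {A B : ℝ} (hB : 0 < B) (hBA : B < A)
    (hlev : ∀ μ, E μ ≠ 0 → μ = A ∨ μ = B ∨ μ = -B ∨ μ = -A) (hs : (E A).rank = s) (hk : (E B).rank = k)
    (hs2 : 2 ≤ s) (hk0 : 0 < k) {X : Matrix n n ℂ} (hX : Xᵀ * Q' + Q' * X = 0) : X ∈ L := by
  classical
  have h2 : 2 ≤ Fintype.card n := by
    rw [← hs] at hs2
    exact hs2.trans ((E A).rank_le_card_width)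
  have fA := f4_A hB hBA
  have fB := f4_B hB hBA
  have fnB := f4_nB hB hBA
  have fnA := f4_nA hB hBA
  have hA0 : E A ≠ 0 := by
    intro h0
    rw [h0, Matrix.rank_zero] at hs
    omega
  have hB0 : E B ≠ 0 := by
    intro h0
    rw [h0, Matrix.rank_zero] at hk
    omega
  have hy := moved2 hQ1 hQ2 hbr hirr hsk hh hE (f4 A B) (by
      intro μ hμ
      rcases hlev μ hμ with rfl | rfl | rfl | rfl
      · rw [fA, fnA]
      · rw [fB, fnB]
      · rw [neg_neg, fB, fnB, neg_neg]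
      · rw [neg_neg, fA, fnA, neg_neg]) (by
      intro μ ν μ' ν' h1 h2 h3 h4 h5
      rcases hlev μ h1 with e1 | e1 | e1 | e1 <;> rcases hlev ν h2 with e2 | e2 | e2 | e2 <;>
        rcases hlev μ' h3 with e3 | e3 | e3 | e3 <;> rcases hlev ν' h4 with e4 | e4 | e4 | e4 <;>
        rw [e1, e2, e3, e4] at h5 <;> rw [e1, e2, e3, e4] <;>
        simp only [fA, fB, fnA, fnB] <;> first | (norm_num; done) | (exfalso; linarith))
  set y : Matrix n n ℂ := ∑ μ ∈ Λ, (f4 A B μ : ℂ) • E μ with hydef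
  have hinj : ∀ μ ν, E μ ≠ 0 → E ν ≠ 0 → f4 A B μ = f4 A B ν → μ = ν := by
    intro μ ν h1 h2 h3
    rcases hlev μ h1 with e1 | e1 | e1 | e1 <;> rcases hlev ν h2 with e2 | e2 | e2 | e2 <;>
      rw [e1, e2] at h3 <;> rw [e1, e2] <;> simp only [fA, fB, fnA, fnB] at h3 <;> (exfalso; norm_num at h3)
  have heig : ∀ μ, E μ ≠ 0 → Module.End.eigenspace (Matrix.toLin' y) (f4 A B μ : ℂ) =
      Module.End.eigenspace (Matrix.toLin' h) (μ : ℂ) := fun μ hμ => hE.moved_eig2 (f4 A B) hinj hμ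
  have htop : (⨆ c : ℂ, Module.End.eigenspace (Matrix.toLin' y) c) = ⊤ := by
    rw [eq_top_iff, ← hE.iSup_eig98, iSup_le_iff]
    intro c
    by_cases h0 : Module.End.eigenspace (Matrix.toLin' h) c = ⊥
    · rw [h0]
      exact bot_le
    · obtain ⟨μ, hμ, rfl⟩ := hE.eig_ne98 h0
      rw [← heig μ hμ]
      exact le_iSup (fun c : ℂ => Module.End.eigenspace (Matrix.toLin' y) c) _
  have h3 := core (Matrix.toBilin' Q') ?_ (form_nondeg98 hQ1) (lieOf L hbr) (lieOf_simple hirr h2 hsmp)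
    (lieOf_irr hirr) (lieOf_sk hsk) (Matrix.toLin' y) (toLin_mem_lieOf hy) htop ?_ ?_ ?_ (Matrix.toLin' X) ?_
  · rw [mem_lieOf, LinearMap.toMatrix'_toLin'] at h3
    exact h3
  · intro v
    rw [Matrix.toBilin'_apply']
    have h4 : v ⬝ᵥ Q' *ᵥ v = -(v ⬝ᵥ Q' *ᵥ v) := by
      conv_lhs => rw [dotProduct_mulVec, ← Matrix.mulVec_transpose, hQs, Matrix.neg_mulVec, neg_dotProduct,
        dotProduct_comm]
    have h5 : (2 : ℂ) * (v ⬝ᵥ Q' *ᵥ v) = 0 := by linear_combination h4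
    exact (mul_eq_zero.1 h5).resolve_left two_ne_zero
  · intro c hc
    -- the eigenvalues of `y`
    obtain ⟨v, hv, hv0⟩ := (Submodule.ne_bot_iff _).1 hc
    rw [Module.End.mem_eigenspace_iff, Matrix.toLin'_apply] at hv
    have h4 : v = ∑ ν ∈ Λ, E ν *ᵥ v := by
      rw [← Matrix.sum_mulVec, hE.sum, Matrix.one_mulVec]
    obtain ⟨ν, hν, hν0⟩ : ∃ ν ∈ Λ, E ν *ᵥ v ≠ 0 := by
      by_contra! hcon
      apply hv0
      rw [h4]
      exact Finset.sum_eq_zero hcon
    have hEν : E ν ≠ 0 := by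
      intro h0
      rw [h0, Matrix.zero_mulVec] at hν0
      exact hν0 rfl
    have e1 : E ν * y = (f4 A B ν : ℂ) • E ν := by
      rw [hydef, Finset.mul_sum, Finset.sum_eq_single_of_mem _ hν fun μ _ hμ => by
        rw [mul_smul_comm, hE.mul, if_neg (Ne.symm hμ), smul_zero]]
      rw [mul_smul_comm, hE.mul, if_pos rfl]
    have e2 := congrArg (fun u => E ν *ᵥ u) hv
    simp only [Matrix.mulVec_mulVec, Matrix.mulVec_smul] at e2
    rw [e1, Matrix.smul_mulVec, ← sub_eq_zero, ← sub_smul] at e2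
    have e3 : c = (f4 A B ν : ℂ) := (sub_eq_zero.1 ((smul_eq_zero.1 e2).resolve_right hν0)).symm
    rw [e3]
    rcases hlev ν hEν with e4 | e4 | e4 | e4 <;> rw [e4]
    · left
      rw [fA]
      push_cast
      rfl
    · right; left
      rw [fB]
      push_cast
      rfl
    · right; right; left
      rw [fnB]
      push_cast
      rfl
    · right; right; right
      rw [fnA]
      push_cast
      rfl
  · have h4 := heig A hA0
    rw [fA] at h4
    have h5 := hE.finrank_eig98 A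
    rw [← h4, hs] at h5
    rw [show (((3 / 2 : ℝ)) : ℂ) = 3 / 2 by push_cast; rfl] at h5
    exact h5
  · have h4 := heig B hB0
    rw [fB] at h4
    have h5 := hE.finrank_eig98 B
    rw [← h4, hk] at h5
    rw [show (((1 / 2 : ℝ)) : ℂ) = 1 / 2 by push_cast; rfl] at h5
    exact h5
  · intro u v
    rw [Matrix.toLin'_apply, Matrix.toLin'_apply]
    exact skew_iff98.1 hX u v

end MH
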