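import Pool.Agent.Helper2.TR.FourG
import Pool.Agent.Helper98.TR.Main

/-!
Project TR (MP_b8862a_ag): odd weight, four Hodge numbers `s, k, k, s`, `s` an odd prime number.
-/

set_option linter.unusedSectionVars false

open Matrix Module

attribute [local instance 100] LieRing.ofAssociativeRing

namespace MH

variable {n : Type*} [Fintype n] [DecidableEq n]

/-- The exceptional pairs. -/
def FourList (s k : ℕ) : Prop := (s = 3 ∧ k = 7) ∨ (s = 5 ∧ k = 11) ∨ (s = 7 ∧ k = 21)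

theorem core_four2 {s k : ℕ} (sp : s.Prime) (s2 : s ≠ 2) (hk0 : 0 < k) (hlist : ¬ FourList s k) :
    ∀ ω : LinearMap.BilinForm ℂ (n → ℂ), ω.IsAlt → ω.Nondegenerate →
      ∀ L : LieSubalgebra ℂ (Module.End ℂ (n → ℂ)), LieAlgebra.IsSimple ℂ L →
      (∀ W : Submodule ℂ (n → ℂ), (∀ x ∈ L, ∀ u ∈ W, x u ∈ W) → W = ⊥ ∨ W = ⊤) →
      (∀ x ∈ L, ∀ u v, ω (x u) v = -ω u (x v)) →
      ∀ y ∈ L, (⨆ c : ℂ, Module.End.eigenspace y c) = ⊤ →
        (∀ c : ℂ, Module.End.eigenspace y c ≠ ⊥ → TR.Four c) →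
        finrank ℂ (Module.End.eigenspace y (3 / 2)) = s → finrank ℂ (Module.End.eigenspace y (1 / 2)) = k →
        ∀ x : Module.End ℂ (n → ℂ), (∀ u v, ω (x u) v = -ω u (x v)) → x ∈ L := by
  intro ω halt hnd L hL hirr hsk y hy hd hev h1 h2
  have := hL
  have s3 : 3 ≤ s := by
    have := sp.two_le
    omega
  exact TR.four_full98 (fun u v => by rw [← halt.neg_eq v u]) hnd L hirr hsk hy hd hev h1 h2 sp s3 hk0
    (fun e1 e2 => hlist (Or.inl ⟨e1, e2⟩)) (fun e1 e2 => hlist (Or.inr (Or.inl ⟨e1, e2⟩)))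
    (fun e1 e2 => hlist (Or.inr (Or.inr ⟨e1, e2⟩)))

variable {w : ℤ} {Q : Matrix n n ℚ} {S : Finset ℤ} {P R : ℤ → Matrix n n ℂ} {Γ : Subgroup (GL n ℂ)}

open scoped ComplexOrder in
/-- the dimension is `2 s + 2 k` -/
theorem IsHW.card_four2 (H : IsHW w Q S P) {a c : ℤ} (hwc : w < 2 * c) (hca : c < a)
    (hP : ∀ p, p ≠ a → p ≠ c → p ≠ w - c → p ≠ w - a → P p = 0) :
    Fintype.card n = 2 * (P a).rank + 2 * (P c).rank := by
  have hconj : ∀ A : Matrix n n ℂ, (A.map (starRingEnd ℂ)).rank = A.rank := by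
    intro A
    have h1 : A.map (starRingEnd ℂ) = Aᴴᵀ := by
      ext i j
      rfl
    rw [h1, Matrix.rank_transpose, Matrix.rank_conjTranspose]
  have hr : ∀ p, (P (w - p)).rank = (P p).rank := fun p => by rw [← H.conj p, hconj]
  have hsum : ∑ p ∈ S, (P p).rank = Fintype.card n := by
    have h1 : ((∑ p ∈ S, (P p).rank : ℕ) : ℂ) = (Fintype.card n : ℂ) := by
      rw [Nat.cast_sum, ← Matrix.trace_one, ← H.sum, Matrix.trace_sum]
      refine Finset.sum_congr rfl fun p _ => ?_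
      rw [trace_eq_rank (by rw [H.mul, if_pos rfl])]
    exact_mod_cast h1
  have e1 : ∑ p ∈ S, (P p).rank = ∑ p ∈ ({a, c, w - c, w - a} : Finset ℤ), (P p).rank := by
    apply Finset.sum_congr_of_eq_on_inter
    · intro p _ hp
      simp only [Finset.mem_insert, Finset.mem_singleton, not_or] at hp
      rw [hP p hp.1 hp.2.1 hp.2.2.1 hp.2.2.2, Matrix.rank_zero]
    · intro p _ hp
      rw [H.supp p hp, Matrix.rank_zero]
    · intro p _ _
      rfl
  rw [← hsum, e1, Finset.sum_insert, Finset.sum_insert, Finset.sum_pair (by omega), hr, hr]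
  · ring
  · simp only [Finset.mem_insert, Finset.mem_singleton]
    omega
  · simp only [Finset.mem_insert, Finset.mem_singleton]
    omega

/-- **Four Hodge numbers `s, k, k, s`, `s` an odd prime, the Lie algebra of the Mumford-Tate group.** -/
theorem IsHW.four2 (H : IsHW w Q S P)
    (hEnd : ∀ A : Matrix n n ℚ, (∀ p, toC A * P p = P p * toC A) → ∃ c : ℚ, A = c • (1 : Matrix n n ℚ))
    (hw : Odd w) {a c : ℤ} (hwc : w < 2 * c) (hca : c < a)
    (hP : ∀ p, p ≠ a → p ≠ c → p ≠ w - c → p ≠ w - a → P p = 0) {s k : ℕ} (hs : (P a).rank = s)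
    (hk : (P c).rank = k) (sp : s.Prime) (s2 : s ≠ 2) (hk0 : 0 < k)
    (hI : k < s → NI.Indec w (fun p => (P p).rank)) :
    (∀ X : Matrix n n ℂ, Xᵀ * toC Q + toC Q * X = 0 → X ∈ LH Q S P) ∨
    (s ≤ k ∧ ¬ Smp (LH Q S P)) ∨ FourList s k := by
  by_cases hlist : FourList s k
  · exact Or.inr (Or.inr hlist)
  rcases H.four_LH2 (core_four2 sp s2 hk0 hlist) hEnd hw hwc hca hP hs hk sp.two_le hk0 with h1 | ⟨h1, h2⟩
  · exact Or.inl h1
  · refine Or.inr (Or.inl ⟨?_, h1⟩)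
    by_contra hsk
    obtain ⟨d, j, hd, hj, h3, h4⟩ := h2 (hI (by omega))
    exact num_four2 sp s2 (by rw [H.card_four2 hwc hca hP, hs, hk]) hd hj h3 (hs ▸ h4 a)

/-- **Four Hodge numbers `s, k, k, s`, `s` an odd prime, the Lie algebra of the Galois group.** -/
theorem IsGalP.four2 (H : IsHW w Q S P) (G : IsGalP w Q S P Γ R) (hirr : VIrr Γ)
    (hd : ∀ d : ℕ, (∀ p, d ∣ (P p).rank) → d = 1)
    (hw : Odd w) {a c : ℤ} (hwc : w < 2 * c) (hca : c < a)
    (hP : ∀ p, p ≠ a → p ≠ c → p ≠ w - c → p ≠ w - a → P p = 0) {s k : ℕ} (hs : (P a).rank = s)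
    (hk : (P c).rank = k) (sp : s.Prime) (s2 : s ≠ 2) (hk0 : 0 < k)
    (hI : k < s → NI.Indec w (fun p => (P p).rank)) :
    (∀ X : Matrix n n ℂ, Xᵀ * toC Q + toC Q * X = 0 → X ∈ LG Γ) ∨
    (s ≤ k ∧ ¬ Smp (LS Q Γ)) ∨ FourList s k := by
  by_cases hlist : FourList s k
  · exact Or.inr (Or.inr hlist)
  rcases G.four_LG2 (core_four2 sp s2 hk0 hlist) H hirr hd hw hwc hca hP hs hk sp.two_le hk0 with h1 | ⟨h1, h2⟩
  · exact Or.inl h1
  · refine Or.inr (Or.inl ⟨?_, h1⟩)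
    by_contra hsk
    exact h2 (hI (by omega))

end MH
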