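import Pool.Agent.Helper2.TR.FourW
import Pool.Agent.Helper55.UG.Gal

/-!
Project TR (MP_b8862a_ag): the Lie algebra of the Galois group, odd weight, four Hodge numbers `s, h, h, s`.
-/

set_option linter.unusedSectionVars false

open Matrix Module

attribute [local instance 100] LieRing.ofAssociativeRing

namespace MH

variable {n : Type*} [Fintype n] [DecidableEq n]

/-- a Lie algebra that has no proper ideals in another basis -/
theorem smp_LBB2 {L : Submodule ℂ (Matrix n n ℂ)} {B Bi : Matrix n n ℂ} (h1 : B * Bi = 1) (h2 : Bi * B = 1)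
    (hs : Smp (LBB27 L B Bi)) : Smp L := by
  intro K hK hid
  have hmem : ∀ x, x ∈ LBB27 K B Bi ↔ cj Bi B x ∈ K := fun x => mem_LBB27
  rcases hs (LBB27 K B Bi) (fun x hx => mem_LBB27.2 (hK ((hmem x).1 hx))) (by
    intro X hX Y hY
    rw [hmem, cj_sub, ← cj_mul h1, ← cj_mul h1]
    exact hid _ (mem_LBB27.1 hX) _ ((hmem Y).1 hY)) with h4 | h4
  · left
    rw [eq_bot_iff]
    intro x hx
    have h5 : cj B Bi x ∈ LBB27 K B Bi := by
      rw [hmem, cj_cj h2]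
      exact hx
    rw [h4, Submodule.mem_bot] at h5
    rw [Submodule.mem_bot, ← cj_cj h2 x, h5, cj_zero]
  · right
    refine le_antisymm hK fun x hx => ?_
    have h5 : cj B Bi x ∈ LBB27 K B Bi := by
      rw [h4, mem_LBB27, cj_cj h2]
      exact hx
    rwa [hmem, cj_cj h2] at h5

/-- An irreducible Lie algebra of skew matrices with a diagonalisable element whose multiplicities are indecomposable and
have no common divisor has no proper ideals. -/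
theorem smp_matrix2 [Nonempty n] {ε : ℂ} (hε : ε * ε = 1) {Q' Qi : Matrix n n ℂ} (hQs : Q'ᵀ = ε • Q')
    (hQ1 : Q' * Qi = 1) (hQ2 : Qi * Q' = 1)
    {L : Submodule ℂ (Matrix n n ℂ)} (hbr : ∀ X ∈ L, ∀ Y ∈ L, X * Y - Y * X ∈ L)
    (hirr : ∀ W : Submodule ℂ (n → ℂ), (∀ X ∈ L, ∀ w ∈ W, X *ᵥ w ∈ W) → W = ⊥ ∨ W = ⊤)
    (hsk : ∀ X ∈ L, Xᵀ * Q' + Q' * X = 0) {h : Matrix n n ℂ} (hh : h ∈ L)
    {E : ℝ → Matrix n n ℂ} {Λ : Finset ℝ} (hE : SD h E Λ) {w : ℤ}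
    (hw : ∀ μ : ℝ, E μ ≠ 0 → ∃ p : ℤ, μ = ((2 * p - w : ℤ) : ℝ))
    (hI : NI.Indec w (fun p : ℤ => (E ((2 * p - w : ℤ) : ℝ)).rank))
    (hd : ∀ d : ℕ, (∀ μ ∈ Λ, d ∣ (E μ).rank) → d = 1) : Smp L := by
  classical
  obtain ⟨B, Bi, h1, h2, h3, h4⟩ := exists_herm L hbr hirr (fun X hX => tr_of_skew98 hQ1 hQ2 (hsk X hX)) hh hE
  have D := dat_irr98 hε hQs hQ1 hQ2 hbr hirr hsk hh hE h1 h2 h3 h4
  have b1 : Bᵀ * Biᵀ = 1 := by rw [← Matrix.transpose_mul, h2, Matrix.transpose_one]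
  have b2 : Biᵀ * Bᵀ = 1 := by rw [← Matrix.transpose_mul, h1, Matrix.transpose_one]
  have hGiG : B * Qi * Bᵀ * (Biᵀ * Q' * Bi) = 1 := by
    calc B * Qi * Bᵀ * (Biᵀ * Q' * Bi) = B * Qi * (Bᵀ * Biᵀ) * Q' * Bi := by simp only [mul_assoc]
      _ = B * (Qi * Q') * Bi := by rw [b1, mul_one]; simp only [mul_assoc]
      _ = 1 := by rw [hQ2, mul_one, h1]
  have hGGi : Biᵀ * Q' * Bi * (B * Qi * Bᵀ) = 1 := by
    calc Biᵀ * Q' * Bi * (B * Qi * Bᵀ) = Biᵀ * Q' * (Bi * B) * Qi * Bᵀ := by simp only [mul_assoc]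
      _ = Biᵀ * (Q' * Qi) * Bᵀ := by rw [h2, mul_one]; simp only [mul_assoc]
      _ = 1 := by rw [hQ1, mul_one, b2]
  have hF : (Biᵀ * Q' * Bi)ᵀ = ε • (Biᵀ * Q' * Bi) := by
    rw [Matrix.transpose_mul, Matrix.transpose_mul, Matrix.transpose_transpose, hQs, smul_mul_assoc, mul_smul_comm,
      ← mul_assoc]
  have hEE : ∀ μ, E μ * E μ = E μ := fun μ => by rw [hE.mul, if_pos rfl]
  have r1 : ∀ μ, (cj B Bi (E μ)).rank = (E μ).rank := fun μ => rank_cj h1 h2 (hEE μ)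
  refine smp_LBB2 h1 h2 (D.smp_of_gcdW hGGi hGiG hε hF (fun x => rfl) (w := w) ?_ ?_ ?_)
  · intro μ hμ
    exact hw μ fun h => hμ (by rw [h, cj_zero])
  · simp only [r1]
    exact hI
  · intro d hdd
    refine hd d fun μ hμ => ?_
    rw [← r1 μ]
    exact hdd μ hμ

variable {w m : ℤ} {Q : Matrix n n ℚ} {S : Finset ℤ} {P R : ℤ → Matrix n n ℂ} {Γ : Subgroup (GL n ℂ)}

/-- **Four Hodge numbers, the Lie algebra of the Galois group**: everything, or not simple. -/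
theorem IsGalP.four_LG2 {s k : ℕ} (core : ∀ ω : LinearMap.BilinForm ℂ (n → ℂ), ω.IsAlt → ω.Nondegenerate →
      ∀ L : LieSubalgebra ℂ (Module.End ℂ (n → ℂ)), LieAlgebra.IsSimple ℂ L →
      (∀ W : Submodule ℂ (n → ℂ), (∀ x ∈ L, ∀ u ∈ W, x u ∈ W) → W = ⊥ ∨ W = ⊤) →
      (∀ x ∈ L, ∀ u v, ω (x u) v = -ω u (x v)) →
      ∀ y ∈ L, (⨆ c : ℂ, Module.End.eigenspace y c) = ⊤ →
        (∀ c : ℂ, Module.End.eigenspace y c ≠ ⊥ → TR.Four c) →
        finrank ℂ (Module.End.eigenspace y (3 / 2)) = s → finrank ℂ (Module.End.eigenspace y (1 / 2)) = k →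
        ∀ x : Module.End ℂ (n → ℂ), (∀ u v, ω (x u) v = -ω u (x v)) → x ∈ L)
    (H : IsHW w Q S P) (G : IsGalP w Q S P Γ R) (hirr : VIrr Γ)
    (hd : ∀ d : ℕ, (∀ p, d ∣ (P p).rank) → d = 1)
    (hw : Odd w) {a c : ℤ} (hwc : w < 2 * c) (hca : c < a)
    (hP : ∀ p, p ≠ a → p ≠ c → p ≠ w - c → p ≠ w - a → P p = 0) (hs : (P a).rank = s) (hk : (P c).rank = k)
    (hs2 : 2 ≤ s) (hk0 : 0 < k) :
    (∀ X : Matrix n n ℂ, Xᵀ * toC Q + toC Q * X = 0 → X ∈ LG Γ) ∨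
    (¬ Smp (LS Q Γ) ∧ ¬ NI.Indec w (fun p => (P p).rank)) := by
  classical
  have hn : Nonempty n := by
    by_contra hcon
    rw [not_nonempty_iff] at hcon
    have : P c = 0 := Subsingleton.elim _ _
    rw [this, Matrix.rank_zero] at hk
    omega
  obtain ⟨_, _, Qi, _, _, hQ1, hQ2, _⟩ := H.exists_basis
  obtain ⟨hh, hS⟩ := G.irr3 H hirr hd
  have hQs : (toC Q)ᵀ = -toC Q := by
    rw [H.Q_symm, hw.neg_one_zpow, neg_one_smul]
  have hEw : ∀ μ : ℝ, G.EP3 μ ≠ 0 → ∃ p : ℤ, μ = ((2 * p - w : ℤ) : ℝ) := by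
    intro μ hμ
    by_contra hne
    push Not at hne
    exact hμ (G.EP3_other fun p _ => (hne p).symm)
  by_cases hsmp : Smp (LS Q Γ)
  · left
    intro X hX
    refine (four_of2 core hQs hQ1 hQ2 (L := LS Q Γ) (fun X hX Y hY => LS_br hX hY) hS (fun X hX => hX.2) hsmp hh
      G.sd3 (A := ((2 * a - w : ℤ) : ℝ)) (B := ((2 * c - w : ℤ) : ℝ)) ?_ ?_ ?_ ?_ ?_ hs2 hk0 hX).1
    · have : (0 : ℤ) < 2 * c - w := by omega
      exact_mod_cast this
    · have : (2 * c - w : ℤ) < 2 * a - w := by omega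
      exact_mod_cast this
    · intro μ hμ
      obtain ⟨p, hp⟩ := hEw μ hμ
      rw [hp, G.EP3_int] at hμ
      have h5 : p = a ∨ p = c ∨ p = w - c ∨ p = w - a := by
        by_contra hcon
        push Not at hcon
        exact hμ (G.ne3.2 (hP p hcon.1 hcon.2.1 hcon.2.2.1 hcon.2.2.2))
      rw [hp]
      rcases h5 with h5 | h5 | h5 | h5
      · left
        rw [h5]
      · right; left
        rw [h5]
      · right; right; left
        rw [h5]
        push_cast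
        ring
      · right; right; right
        rw [h5]
        push_cast
        ring
    · rw [G.EP3_int, G.rank, hs]
    · rw [G.EP3_int, G.rank, hk]
  · right
    refine ⟨hsmp, fun hI => hsmp ?_⟩
    refine smp_matrix2 (ε := -1) (by norm_num) (by rw [hQs, neg_one_smul]) hQ1 hQ2 (fun X hX Y hY => LS_br hX hY) hS
      (fun X hX => hX.2) hh G.sd3 (w := w) hEw ?_ (fun d h => G.div3 H hd d h)
    have e1 : (fun p : ℤ => (G.EP3 ((2 * p - w : ℤ) : ℝ)).rank) = fun p => (P p).rank := by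
      funext p
      rw [G.EP3_int, G.rank]
    rw [e1]
    exact hI

end MH
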