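import Pool.Agent.Helper2.TR.Four
import Pool.Agent.Helper2.PG.DichG

/-!
Project TR (MP_b8862a_ag): the Mumford-Tate group of a polarised Hodge structure of odd weight with four Hodge numbers
`s, h, h, s`.
-/

set_option linter.unusedSectionVars false

open Matrix Module

attribute [local instance 100] LieRing.ofAssociativeRing

namespace MH

variable {n : Type*} [Fintype n] [DecidableEq n]
variable {w : ℤ} {Q : Matrix n n ℚ} {S : Finset ℤ} {P : ℤ → Matrix n n ℂ}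

/-- the Lie algebra in another basis has no proper ideals either -/
theorem smp_cj2 {B Bi : Matrix n n ℂ} (h1 : B * Bi = 1) (h2 : Bi * B = 1) (hs : Smp (LH Q S P)) :
    Smp (LB Q S P B Bi) := by
  intro K hK hid
  obtain ⟨K', hK'⟩ : ∃ K' : Submodule ℂ (Matrix n n ℂ), ∀ X, X ∈ K' ↔ cj B Bi X ∈ K := by
    refine ⟨{ carrier := {X | cj B Bi X ∈ K}
              add_mem' := ?_
              zero_mem' := ?_
              smul_mem' := ?_ }, fun X => Iff.rfl⟩
    · intro a b ha hb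
      change cj B Bi (a + b) ∈ K
      rw [show cj B Bi (a + b) = cj B Bi a + cj B Bi b by unfold cj; rw [mul_add, add_mul]]
      exact K.add_mem ha hb
    · change cj B Bi 0 ∈ K
      rw [cj_zero]
      exact K.zero_mem
    · intro c a ha
      change cj B Bi (c • a) ∈ K
      rw [cj_smul]
      exact K.smul_mem _ ha
  have h3 : K' ≤ LH Q S P := by
    intro X hX
    have h4 := mem_LB.1 (hK ((hK' X).1 hX))
    rwa [cj_cj h2] at h4
  rcases hs K' h3 (by
    intro X hX Y hY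
    rw [hK', cj_sub, ← cj_mul h2, ← cj_mul h2]
    exact hid _ (by rw [mem_LB, cj_cj h2]; exact hX) _ ((hK' Y).1 hY)) with h4 | h4
  · left
    rw [eq_bot_iff]
    intro x hx
    have h5 : cj Bi B x ∈ K' := by
      rw [hK', cj_cj h1]
      exact hx
    rw [h4, Submodule.mem_bot] at h5
    rw [Submodule.mem_bot, ← cj_cj h1 x, h5, cj_zero]
  · right
    refine le_antisymm hK fun x hx => ?_
    have h5 : cj Bi B x ∈ K' := by
      rw [h4]
      exact mem_LB.1 hx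
    rw [hK', cj_cj h1] at h5
    exact h5

/-- The Lie algebra of the matrices that kill all Hodge tensors is simple, all weights. -/
theorem IsHW.smpW2 [Nonempty n] (H : IsHW w Q S P)
    (hEnd : ∀ A : Matrix n n ℚ, (∀ p, toC A * P p = P p * toC A) → ∃ c : ℚ, A = c • (1 : Matrix n n ℚ))
    (hI : NI.Indec w (fun p => (P p).rank))
    (hnum : ∀ d k : ℕ, 2 ≤ d → 2 ≤ k → Fintype.card n = d ^ k → (∀ p, d ^ (k - 1) ∣ (P p).rank) → False)
    {B Bi Qi : Matrix n n ℂ} (h1 : B * Bi = 1) (h2 : Bi * B = 1) (h3 : toC Q * Qi = 1) (h4 : Qi * toC Q = 1)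
    (hM : Mw w Q S P = Bᴴ * B) : Smp (LB Q S P B Bi) := by
  classical
  have D := H.datW hEnd h1 h2 h3 h4 hM
  have hPP : ∀ p, P p * P p = P p := fun p => by rw [H.mul, if_pos rfl]
  have r1 : ∀ p : ℤ, (EW w S P B Bi ((2 * p - w : ℤ) : ℝ)).rank = (P p).rank := fun p => by
    rw [H.EW_int, rank_cj h1 h2 (hPP p)]
  have hw' : ∀ μ : ℝ, EW w S P B Bi μ ≠ 0 → ∃ p : ℤ, μ = ((2 * p - w : ℤ) : ℝ) := by
    intro μ hμ
    by_contra hne
    push Not at hne
    exact hμ (EW_other B Bi fun p _ => (hne p).symm)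
  obtain ⟨c, hc, hQc⟩ : ∃ c : ℂ, c * c = 1 ∧ (toC Q)ᵀ = c • toC Q := ⟨(-1 : ℂ) ^ w, sgn_mul w, H.Q_symm⟩
  have b1 : Bᵀ * Biᵀ = 1 := by rw [← Matrix.transpose_mul, h2, Matrix.transpose_one]
  have b2 : Biᵀ * Bᵀ = 1 := by rw [← Matrix.transpose_mul, h1, Matrix.transpose_one]
  have f1 : Biᵀ * toC Q * Bi * (B * Qi * Bᵀ) = 1 := by
    calc Biᵀ * toC Q * Bi * (B * Qi * Bᵀ) = Biᵀ * toC Q * (Bi * B) * Qi * Bᵀ := by simp only [mul_assoc]
      _ = Biᵀ * (toC Q * Qi) * Bᵀ := by rw [h2, mul_one]; simp only [mul_assoc]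
      _ = 1 := by rw [h3, mul_one, b2]
  have f2 : B * Qi * Bᵀ * (Biᵀ * toC Q * Bi) = 1 := by
    calc B * Qi * Bᵀ * (Biᵀ * toC Q * Bi) = B * Qi * (Bᵀ * Biᵀ) * toC Q * Bi := by simp only [mul_assoc]
      _ = B * (Qi * toC Q) * Bi := by rw [b1, mul_one]; simp only [mul_assoc]
      _ = 1 := by rw [h4, mul_one, h1]
  have hF : (Biᵀ * toC Q * Bi)ᵀ = c • (Biᵀ * toC Q * Bi) := by
    rw [Matrix.transpose_mul, Matrix.transpose_mul, Matrix.transpose_transpose, hQc, Matrix.smul_mul, Matrix.mul_smul,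
      mul_assoc]
  have hτ : ∀ x, tau B Bi (toC Q) Qi x = B * Qi * Bᵀ * xᵀ * (Biᵀ * toC Q * Bi) := by
    intro x
    rw [tau_apply]
    unfold cj
    rw [Matrix.transpose_mul, Matrix.transpose_mul]
    simp only [mul_assoc]
  have hI' : NI.Indec w (fun p : ℤ => (EW w S P B Bi ((2 * p - w : ℤ) : ℝ)).rank) := by
    simp only [r1]
    exact hI
  have hcjφ : ∀ (σ : ℂ ≃+* ℂ) (x : Matrix n n ℂ), cj Bi B (phi98 h1 h2 σ x) = (cj Bi B x).map σ := fun σ x => cj_cj h2 _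
  have hcjψ : ∀ (σ : ℂ ≃+* ℂ) (x : Matrix n n ℂ), cj Bi B ((phi98 h1 h2 σ).symm x) = (cj Bi B x).map σ.symm :=
    fun σ x => cj_cj h2 _
  rcases D.dich_or (fun K hK => D.h_mem_orW f1 f2 hc hF hτ hw' hI' hK) (phi98 h1 h2) (fun σ => σ) (by
      intro σ c x
      show cj B Bi ((cj Bi B (c • x)).map σ) = σ c • cj B Bi ((cj Bi B x).map σ)
      have e1 : (cj Bi B (c • x)).map σ = σ c • (cj Bi B x).map σ := by
        rw [cj_smul]
        ext i j
        simp
      rw [e1, cj_smul]) (by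
      intro σ x hx
      rw [mem_LB, hcjφ]
      exact LH_aut σ hx) (by
      intro σ x hx
      rw [mem_LB, hcjψ]
      exact LH_aut σ.symm hx) (by
      intro T hT
      have hdes := H.descent (T := cj Bi B T) (by
        intro σ
        have h5 := hT σ
        have h6 := congrArg (cj Bi B) h5
        rw [← cj_mul h1, ← cj_mul h1, hcjφ, cj_cj h2] at h6
        exact h6)
      obtain ⟨c, hc⟩ := EC_scalar98 hEnd hdes
      refine ⟨c, ?_⟩
      have h8 := congrArg (cj B Bi) hc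
      rw [cj_cj h1, cj_smul, cj_one h1] at h8
      exact h8) with h5 | ⟨d, k, hd, hk, hcard, hdvd⟩
  · exact h5
  · exfalso
    refine hnum d k hd hk hcard fun p => ?_
    rw [← r1]
    exact hdvd _

/-- **Four Hodge numbers, the Lie algebra of the Mumford-Tate group**: everything, or not simple. -/
theorem IsHW.four_LH2 {s k : ℕ} (core : ∀ ω : LinearMap.BilinForm ℂ (n → ℂ), ω.IsAlt → ω.Nondegenerate →
      ∀ L : LieSubalgebra ℂ (Module.End ℂ (n → ℂ)), LieAlgebra.IsSimple ℂ L →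
      (∀ W : Submodule ℂ (n → ℂ), (∀ x ∈ L, ∀ u ∈ W, x u ∈ W) → W = ⊥ ∨ W = ⊤) →
      (∀ x ∈ L, ∀ u v, ω (x u) v = -ω u (x v)) →
      ∀ y ∈ L, (⨆ c : ℂ, Module.End.eigenspace y c) = ⊤ →
        (∀ c : ℂ, Module.End.eigenspace y c ≠ ⊥ → TR.Four c) →
        finrank ℂ (Module.End.eigenspace y (3 / 2)) = s → finrank ℂ (Module.End.eigenspace y (1 / 2)) = k →
        ∀ x : Module.End ℂ (n → ℂ), (∀ u v, ω (x u) v = -ω u (x v)) → x ∈ L)
    (H : IsHW w Q S P)
    (hEnd : ∀ A : Matrix n n ℚ, (∀ p, toC A * P p = P p * toC A) → ∃ c : ℚ, A = c • (1 : Matrix n n ℚ))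
    (hw : Odd w) {a c : ℤ} (hwc : w < 2 * c) (hca : c < a)
    (hP : ∀ p, p ≠ a → p ≠ c → p ≠ w - c → p ≠ w - a → P p = 0) (hs : (P a).rank = s) (hk : (P c).rank = k)
    (hs2 : 2 ≤ s) (hk0 : 0 < k) :
    (∀ X : Matrix n n ℂ, Xᵀ * toC Q + toC Q * X = 0 → X ∈ LH Q S P) ∨
    (¬ Smp (LH Q S P) ∧ (NI.Indec w (fun p => (P p).rank) →
      ∃ d k : ℕ, 2 ≤ d ∧ 2 ≤ k ∧ Fintype.card n = d ^ k ∧ ∀ p, d ^ (k - 1) ∣ (P p).rank)) := by
  classical
  have hn : Nonempty n := by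
    by_contra hcon
    rw [not_nonempty_iff] at hcon
    have : P c = 0 := Subsingleton.elim _ _
    rw [this, Matrix.rank_zero] at hk
    omega
  obtain ⟨B, Bi, Qi, h1, h2, h3, h4, hM⟩ := H.exists_basis
  have D := H.datW hEnd h1 h2 h3 h4 hM
  by_cases hsmp : Smp (LB Q S P B Bi)
  swap
  · right
    refine ⟨fun h => hsmp (smp_cj2 h1 h2 h), fun hI => ?_⟩
    by_contra hcon
    push Not at hcon
    apply hsmp
    refine H.smpW2 hEnd hI (fun d j hd hj h5 h6 => ?_) h1 h2 h3 h4 hM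
    obtain ⟨p, hp⟩ := hcon d j hd hj h5
    exact hp (h6 p)
  left
  have hPP : ∀ p, P p * P p = P p := fun p => by rw [H.mul, if_pos rfl]
  have b1 : Bᵀ * Biᵀ = 1 := by rw [← Matrix.transpose_mul, h2, Matrix.transpose_one]
  have b2 : Biᵀ * Bᵀ = 1 := by rw [← Matrix.transpose_mul, h1, Matrix.transpose_one]
  have f1 : Biᵀ * toC Q * Bi * (B * Qi * Bᵀ) = 1 := by
    calc Biᵀ * toC Q * Bi * (B * Qi * Bᵀ) = Biᵀ * toC Q * (Bi * B) * Qi * Bᵀ := by simp only [mul_assoc]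
      _ = Biᵀ * (toC Q * Qi) * Bᵀ := by rw [h2, mul_one]; simp only [mul_assoc]
      _ = 1 := by rw [h3, mul_one, b2]
  have f2 : B * Qi * Bᵀ * (Biᵀ * toC Q * Bi) = 1 := by
    calc B * Qi * Bᵀ * (Biᵀ * toC Q * Bi) = B * Qi * (Bᵀ * Biᵀ) * toC Q * Bi := by simp only [mul_assoc]
      _ = B * (Qi * toC Q) * Bi := by rw [b1, mul_one]; simp only [mul_assoc]
      _ = 1 := by rw [h4, mul_one, h1]
  have hF : (Biᵀ * toC Q * Bi)ᵀ = -(Biᵀ * toC Q * Bi) := by
    rw [Matrix.transpose_mul, Matrix.transpose_mul, Matrix.transpose_transpose, H.Q_symm, hw.neg_one_zpow,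
      neg_one_smul, Matrix.neg_mul, Matrix.mul_neg, mul_assoc]
  have hsk : ∀ Y ∈ LB Q S P B Bi, Yᵀ * (Biᵀ * toC Q * Bi) + (Biᵀ * toC Q * Bi) * Y = 0 := by
    intro Y hY
    have e1 := skew_cj2 (B := B) h2 (mem_LB.1 hY).1
    rwa [cj_cj h1] at e1
  have hA : EW w S P B Bi ((2 * a - w : ℤ) : ℝ) = cj B Bi (P a) := H.EW_int B Bi a
  have hC : EW w S P B Bi ((2 * c - w : ℤ) : ℝ) = cj B Bi (P c) := H.EW_int B Bi c
  intro X hX
  have e1 := four_of2 core hF f1 f2 D.br (fun W hW => D.stable W hW) hsk hsmp D.mem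
    (SD.mk D.spec.mul D.spec.sum D.spec.eq) (A := ((2 * a - w : ℤ) : ℝ)) (B := ((2 * c - w : ℤ) : ℝ))
    (by
      have : (0 : ℤ) < 2 * c - w := by omega
      exact_mod_cast this) (by
      have : (2 * c - w : ℤ) < 2 * a - w := by omega
      exact_mod_cast this) (by
      intro μ hμ
      obtain ⟨p, hp⟩ : ∃ p : ℤ, μ = ((2 * p - w : ℤ) : ℝ) := by
        by_contra hne
        push Not at hne
        exact hμ (EW_other B Bi fun p _ => (hne p).symm)
      rw [hp, H.EW_int] at hμ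
      have h5 : p = a ∨ p = c ∨ p = w - c ∨ p = w - a := by
        by_contra hcon
        push Not at hcon
        rw [hP p hcon.1 hcon.2.1 hcon.2.2.1 hcon.2.2.2, cj_zero] at hμ
        exact hμ rfl
      rw [hp]
      rcases h5 with h5 | h5 | h5 | h5
      · left
        rw [h5]
      · right; left
        rw [h5]
      · right; right; left
        rw [h5]
        push_cast
        ring
      · right; right; right
        rw [h5]
        push_cast
        ring) (by rw [hA, rank_cj h1 h2 (hPP a), hs]) (by rw [hC, rank_cj h1 h2 (hPP c), hk]) hs2 hk0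
    (skew_cj2 (B := B) h2 hX)
  rwa [mem_LB, cj_cj h2] at e1

/-- numbers: `s` an odd prime -/
theorem num_four2 {N s k : ℕ} (hs : s.Prime) (hs2 : s ≠ 2) (hN : N = 2 * s + 2 * k) {d j : ℕ} (hd : 2 ≤ d)
    (hj : 2 ≤ j) (h1 : N = d ^ j) (h2 : d ^ (j - 1) ∣ s) : False := by
  have h3 : d ^ (j - 1) ≠ 1 := by
    intro h
    rcases Nat.pow_eq_one.1 h with h4 | h4 <;> omega
  have h4 : d ^ (j - 1) = s := (hs.eq_one_or_self_of_dvd _ h2).resolve_left h3
  have h5 : j - 1 = 1 := by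
    have h6 := hs
    rw [← h4] at h6
    exact Nat.Prime.eq_one_of_pow h6
  have h6 : j = 2 := by omega
  subst h6
  rw [show 2 - 1 = 1 from rfl, pow_one] at h4
  subst h4
  have h7 : Odd (d ^ 2) := (hs.odd_of_ne_two hs2).pow
  rw [← h1, hN] at h7
  rcases h7 with ⟨x, hx⟩
  omega

end MH
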