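import Pool.Agent.Helper98.PG.ExtMat
import Pool.Agent.Helper55.PG.ThreeK
import Mathlib.LinearAlgebra.Lagrange

/-!
Project TR (MP_b8862a_ag): an irreducible Lie algebra of skew matrices contains all the skew matrices which normalise
it. So the eigenvalues of a diagonalisable element can be moved if the differences allow it.
-/

set_option linter.unusedSectionVars false

open Matrix Module

attribute [local instance 100] LieRing.ofAssociativeRing

open Pool.Agent.Helper54.MT (killing_of)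

namespace MH

section abs

variable {V : Type*} [AddCommGroup V] [Module ℂ V] [FiniteDimensional ℂ V]

/-- An irreducible Lie algebra of skew endomorphisms contains all the skew endomorphisms which normalise it. -/
theorem mem_of_ad_end2 {ω : LinearMap.BilinForm ℂ V} (hnd : ω.Nondegenerate)
    (L : LieSubalgebra ℂ (Module.End ℂ V))
    (hirr : ∀ W : Submodule ℂ V, (∀ x ∈ L, ∀ u ∈ W, x u ∈ W) → W = ⊥ ∨ W = ⊤)
    (hsk : ∀ x ∈ L, ∀ u v, ω (x u) v = -ω u (x v)) {y : Module.End ℂ V}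
    (hy : ∀ u v, ω (y u) v = -ω u (y v)) (had : ∀ x ∈ L, ⁅y, x⁆ ∈ L) : y ∈ L := by
  classical
  rcases subsingleton_or_nontrivial V with hV | hV
  · have : y = 0 := by
      ext u
      exact Subsingleton.elim _ _
    rw [this]
    exact L.zero_mem
  have hk : LieAlgebra.IsKilling ℂ L := by
    refine killing_of (ω := ω) hnd ⟨?_, ?_, ?_⟩
    · intro x hx y hy
      have := L.lie_mem hx hy
      exact this
    · intro x hx u v
      exact hsk x hx u v
    · intro W hW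
      exact hirr W hW
  let D : LieDerivation ℂ L L :=
    { toFun := fun x => ⟨⁅y, (x : Module.End ℂ V)⁆, had x x.2⟩
      map_add' := fun a b => Subtype.ext (by
        show ⁅y, (a : Module.End ℂ V) + (b : Module.End ℂ V)⁆ = ⁅y, (a : Module.End ℂ V)⁆ + ⁅y, (b : Module.End ℂ V)⁆
        rw [lie_add])
      map_smul' := fun c a => Subtype.ext (by
        show ⁅y, c • (a : Module.End ℂ V)⁆ = c • ⁅y, (a : Module.End ℂ V)⁆
        rw [lie_smul])
      leibniz' := fun a b => Subtype.ext (by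
        show ⁅y, ⁅(a : Module.End ℂ V), (b : Module.End ℂ V)⁆⁆ =
          ⁅(a : Module.End ℂ V), ⁅y, (b : Module.End ℂ V)⁆⁆ - ⁅(b : Module.End ℂ V), ⁅y, (a : Module.End ℂ V)⁆⁆
        rw [leibniz_lie, ← lie_skew (b : Module.End ℂ V) ⁅y, (a : Module.End ℂ V)⁆]
        abel) }
  obtain ⟨z, hz⟩ := LieDerivation.IsKilling.exists_eq_ad D
  have hz1 : ∀ x ∈ L, ⁅(z : Module.End ℂ V), x⁆ = ⁅y, x⁆ := by
    intro x hx
    have h1 := congrArg (fun T : LieDerivation ℂ L L => ((T ⟨x, hx⟩ : L) : Module.End ℂ V)) hz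
    simp only [LieDerivation.ad_apply_apply] at h1
    exact h1
  -- the difference commutes with `L`
  set T : Module.End ℂ V := y - z with hT
  have hcomm : ∀ x ∈ L, T * x = x * T := by
    intro x hx
    have h1 := hz1 x hx
    rw [LieRing.of_associative_ring_bracket, LieRing.of_associative_ring_bracket] at h1
    rw [hT, sub_mul, mul_sub]
    have h2 : y * x - z * x - (x * y - x * z) = 0 := by
      rw [show y * x - (z : Module.End ℂ V) * x - (x * y - x * z) = (y * x - x * y) - (z * x - x * z) by abel, h1,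
        sub_self]
    exact sub_eq_zero.1 h2
  obtain ⟨c, hc⟩ := Module.End.exists_eigenvalue T
  have hW : T.eigenspace c = ⊤ := by
    rcases hirr (T.eigenspace c) (by
      intro x hx u hu
      rw [Module.End.mem_eigenspace_iff] at hu ⊢
      rw [← Module.End.mul_apply, hcomm x hx, Module.End.mul_apply, hu, map_smul]) with h | h
    · exact absurd h hc
    · exact h
  have hTc : ∀ u, T u = c • u := fun u => by
    have : u ∈ T.eigenspace c := by rw [hW]; trivial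
    exact Module.End.mem_eigenspace_iff.1 this
  have hTs : ∀ u v, ω (T u) v = -ω u (T v) := by
    intro u v
    rw [hT, LinearMap.sub_apply, LinearMap.sub_apply, map_sub, map_sub, LinearMap.sub_apply, hy,
      hsk z z.2]
    abel
  have hc0 : c = 0 := by
    obtain ⟨v, hv⟩ := exists_ne (0 : V)
    by_contra hne
    apply hv
    apply hnd.2
    intro w
    have h1 := hTs w v
    rw [hTc, hTc, map_smul, map_smul, LinearMap.smul_apply, smul_eq_mul] at h1
    have h2 : (2 * c) * ω w v = 0 := by linear_combination h1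
    rcases mul_eq_zero.1 h2 with h3 | h3
    · exact absurd h3 (mul_ne_zero two_ne_zero hne)
    · exact h3
  have hT0 : T = 0 := by
    ext u
    rw [hTc, hc0, zero_smul, LinearMap.zero_apply]
  have hyz : y = z := sub_eq_zero.1 hT0
  rw [hyz]
  exact z.2

end abs

variable {n : Type*} [Fintype n] [DecidableEq n]

/-- An irreducible Lie algebra of skew matrices contains all the skew matrices which normalise it. -/
theorem mem_of_ad2 {Q' Qi : Matrix n n ℂ} (hQ1 : Q' * Qi = 1) {L : Submodule ℂ (Matrix n n ℂ)}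
    (hbr : ∀ X ∈ L, ∀ Y ∈ L, X * Y - Y * X ∈ L)
    (hirr : ∀ W : Submodule ℂ (n → ℂ), (∀ X ∈ L, ∀ w ∈ W, X *ᵥ w ∈ W) → W = ⊥ ∨ W = ⊤)
    (hsk : ∀ X ∈ L, Xᵀ * Q' + Q' * X = 0) {Y : Matrix n n ℂ} (hY : Yᵀ * Q' + Q' * Y = 0)
    (had : ∀ X ∈ L, Y * X - X * Y ∈ L) : Y ∈ L := by
  have h1 := mem_of_ad_end2 (form_nondeg98 hQ1) (lieOf L hbr) (lieOf_irr hirr) (lieOf_sk hsk)
    (y := Matrix.toLin' Y) (by
      intro u v
      rw [Matrix.toLin'_apply, Matrix.toLin'_apply]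
      exact skew_iff98.1 hY u v) (by
      intro x hx
      rw [mem_lieOf] at hx ⊢
      have h2 := had _ hx
      rw [LieRing.of_associative_ring_bracket, map_sub, LinearMap.toMatrix'_mul, LinearMap.toMatrix'_mul,
        LinearMap.toMatrix'_toLin']
      exact h2)
  rw [mem_lieOf, LinearMap.toMatrix'_toLin'] at h1
  exact h1

/-- The parts of the elements of a space stable under the bracket with `h`. -/
theorem SD.parts_mem2 {h : Matrix n n ℂ} {E : ℝ → Matrix n n ℂ} {Λ : Finset ℝ} (hE : SD h E Λ)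
    {L : Submodule ℂ (Matrix n n ℂ)} (hL : ∀ X ∈ L, h * X - X * h ∈ L) (φ : ℝ → ℂ) {X : Matrix n n ℂ} (hX : X ∈ L) :
    ∑ μ ∈ Λ, ∑ ν ∈ Λ, φ (μ - ν) • (E μ * X * E ν) ∈ L := by
  classical
  set T : Module.End ℂ (Matrix n n ℂ) := LinearMap.mulLeft ℂ h - LinearMap.mulRight ℂ h with hT
  have hTa : ∀ Y, T Y = h * Y - Y * h := fun Y => rfl
  have hEh : ∀ μ, E μ * h = (μ : ℂ) • E μ := fun μ => hE.mul_l μ
  have hhE : ∀ μ, h * E μ = (μ : ℂ) • E μ := fun μ => hE.l_mul μ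
  -- the polynomials of `T`
  have hpow : ∀ p : Polynomial ℂ, ∀ μ ν : ℝ, Polynomial.aeval T p (E μ * X * E ν) =
      p.eval (((μ - ν : ℝ) : ℂ)) • (E μ * X * E ν) := by
    intro p μ ν
    have h1 : T (E μ * X * E ν) = (((μ - ν : ℝ) : ℂ)) • (E μ * X * E ν) := by
      rw [hTa, ← mul_assoc, ← mul_assoc, hhE, smul_mul_assoc, smul_mul_assoc, mul_assoc (E μ * X), hEh,
        mul_smul_comm, ← sub_smul]
      push_cast
      rfl
    by_cases h0 : E μ * X * E ν = 0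
    · rw [h0, map_zero, smul_zero]
    · exact Module.End.aeval_apply_of_hasEigenvector ⟨Module.End.mem_eigenspace_iff.2 h1, h0⟩
  have hsum : X = ∑ μ ∈ Λ, ∑ ν ∈ Λ, E μ * X * E ν := by
    have h1 : ∑ μ ∈ Λ, ∑ ν ∈ Λ, E μ * X * E ν = (∑ μ ∈ Λ, E μ) * X * (∑ ν ∈ Λ, E ν) := by
      rw [Finset.sum_mul, Finset.sum_mul]
      refine Finset.sum_congr rfl fun μ _ => ?_
      rw [Finset.mul_sum]
    rw [h1, hE.sum, one_mul, mul_one]
  have hst : ∀ p : Polynomial ℂ, Polynomial.aeval T p X ∈ L := by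
    intro p
    induction p using Polynomial.induction_on' with
    | add p q hp hq => rw [map_add, LinearMap.add_apply]; exact L.add_mem hp hq
    | monomial k c =>
      rw [Polynomial.aeval_monomial, Module.End.mul_apply, Module.algebraMap_end_apply]
      apply L.smul_mem
      induction k with
      | zero => exact hX
      | succ k ih =>
        rw [pow_succ', Module.End.mul_apply, hTa]
        exact hL _ ih
  obtain ⟨p, hp⟩ : ∃ p : Polynomial ℂ, ∀ μ ∈ Λ, ∀ ν ∈ Λ, p.eval (((μ - ν : ℝ) : ℂ)) = φ (μ - ν) := by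
    set s : Finset ℝ := Finset.image₂ (fun μ ν => μ - ν) Λ Λ with hs
    refine ⟨Lagrange.interpolate s (fun x : ℝ => (x : ℂ)) φ, fun μ hμ ν hν => ?_⟩
    have h1 : μ - ν ∈ s := Finset.mem_image₂_of_mem hμ hν
    exact Lagrange.eval_interpolate_at_node φ (fun x _ y _ hxy => by exact_mod_cast hxy) h1
  have hfin := hst p
  rw [hsum, map_sum] at hfin
  have e1 : ∑ μ ∈ Λ, ∑ ν ∈ Λ, φ (μ - ν) • (E μ * X * E ν) = ∑ μ ∈ Λ, Polynomial.aeval T p (∑ ν ∈ Λ, E μ * X * E ν) := by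
    refine Finset.sum_congr rfl fun μ hμ => ?_
    rw [map_sum]
    refine Finset.sum_congr rfl fun ν hν => ?_
    rw [hpow, hp μ hμ ν hν]
  rw [e1]
  exact hfin

/-- **Moving the eigenvalues.** -/
theorem moved2 {Q' Qi : Matrix n n ℂ} (hQ1 : Q' * Qi = 1) (hQ2 : Qi * Q' = 1) {L : Submodule ℂ (Matrix n n ℂ)}
    (hbr : ∀ X ∈ L, ∀ Y ∈ L, X * Y - Y * X ∈ L)
    (hirr : ∀ W : Submodule ℂ (n → ℂ), (∀ X ∈ L, ∀ w ∈ W, X *ᵥ w ∈ W) → W = ⊥ ∨ W = ⊤)
    (hsk : ∀ X ∈ L, Xᵀ * Q' + Q' * X = 0) {h : Matrix n n ℂ} {E : ℝ → Matrix n n ℂ} {Λ : Finset ℝ} (hh : h ∈ L)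
    (hE : SD h E Λ) (f : ℝ → ℝ) (hodd : ∀ μ, E μ ≠ 0 → f (-μ) = -f μ)
    (hdiff : ∀ μ ν μ' ν', E μ ≠ 0 → E ν ≠ 0 → E μ' ≠ 0 → E ν' ≠ 0 → μ - ν = μ' - ν' → f μ - f ν = f μ' - f ν') :
    ∑ μ ∈ Λ, (f μ : ℂ) • E μ ∈ L := by
  classical
  have hsymm : ∀ μ, (E μ)ᵀ * Q' = Q' * E (-μ) := by
    intro μ
    rw [E_symm98 hQ1 hQ2 (hsk h hh) hE μ]
    calc (E μ)ᵀ * Q' = (Q' * Qi) * (E μ)ᵀ * Q' := by rw [hQ1, one_mul]
      _ = _ := by simp only [mul_assoc]
  have hneg : ∀ μ, E μ ≠ 0 → E (-μ) ≠ 0 := by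
    intro μ hμ h0
    apply hμ
    have h1 := E_symm98 hQ1 hQ2 (hsk h hh) hE (-μ)
    rw [neg_neg, h0, Matrix.transpose_zero, mul_zero, zero_mul] at h1
    exact h1
  refine mem_of_ad2 hQ1 hbr hirr hsk ?_ ?_
  · rw [Matrix.transpose_sum, Finset.sum_mul, Finset.mul_sum]
    have e1 : ∑ μ ∈ Λ, ((f μ : ℂ) • E μ)ᵀ * Q' = ∑ μ ∈ Λ, (f μ : ℂ) • (Q' * E (-μ)) :=
      Finset.sum_congr rfl fun μ _ => by rw [Matrix.transpose_smul, smul_mul_assoc, hsymm]
    have e2 : ∑ μ ∈ Λ, (f μ : ℂ) • (Q' * E (-μ)) = ∑ μ ∈ Λ, (-(f μ : ℂ)) • (Q' * E μ) := by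
      have e3 : ∑ μ ∈ Λ, (f μ : ℂ) • (Q' * E (-μ)) = ∑ μ ∈ Λ.image (fun μ => -μ), (f (-μ) : ℂ) • (Q' * E μ) := by
        rw [Finset.sum_image (fun a _ b _ h => neg_injective h)]
        exact Finset.sum_congr rfl fun μ _ => by rw [neg_neg]
      rw [e3]
      apply Finset.sum_congr_of_eq_on_inter
      · intro μ _ hμ
        rw [hE.supp hμ, mul_zero, smul_zero]
      · intro μ hμ hμ'
        have h1 : E μ = 0 := by
          by_contra h0
          have h2 := hneg μ h0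
          apply hμ'
          rw [Finset.mem_image]
          refine ⟨-μ, ?_, neg_neg μ⟩
          by_contra h3
          exact h2 (hE.supp h3)
        rw [h1, mul_zero, smul_zero]
      · intro μ _ _
        by_cases h0 : E μ = 0
        · rw [h0, mul_zero, smul_zero, smul_zero]
        · rw [hodd μ h0]
          push_cast
          rfl
    rw [e1, e2, ← Finset.sum_add_distrib]
    refine Finset.sum_eq_zero fun μ _ => ?_
    rw [mul_smul_comm, neg_smul, neg_add_cancel]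
  · intro X hX
    -- the function on the differences
    obtain ⟨φ, hφ⟩ : ∃ φ : ℝ → ℂ, ∀ μ ν, E μ ≠ 0 → E ν ≠ 0 → φ (μ - ν) = (f μ : ℂ) - (f ν : ℂ) := by
      refine ⟨fun d => if hd : ∃ p : ℝ × ℝ, E p.1 ≠ 0 ∧ E p.2 ≠ 0 ∧ p.1 - p.2 = d then
        (f hd.choose.1 : ℂ) - (f hd.choose.2 : ℂ) else 0, fun μ ν hμ hν => ?_⟩
      have hd : ∃ p : ℝ × ℝ, E p.1 ≠ 0 ∧ E p.2 ≠ 0 ∧ p.1 - p.2 = μ - ν := ⟨(μ, ν), hμ, hν, rfl⟩
      simp only [dif_pos hd]
      obtain ⟨h1, h2, h3⟩ := hd.choose_spec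
      have h4 := hdiff _ _ _ _ h1 h2 hμ hν h3
      exact_mod_cast h4
    have h1 := hE.parts_mem2 (fun X hX => hbr h hh X hX) φ hX
    have h2 : (∑ μ ∈ Λ, (f μ : ℂ) • E μ) * X - X * (∑ μ ∈ Λ, (f μ : ℂ) • E μ) =
        ∑ μ ∈ Λ, ∑ ν ∈ Λ, φ (μ - ν) • (E μ * X * E ν) := by
      have e1 : (∑ μ ∈ Λ, (f μ : ℂ) • E μ) * X = ∑ μ ∈ Λ, ∑ ν ∈ Λ, (f μ : ℂ) • (E μ * X * E ν) := by
        rw [Finset.sum_mul]
        refine Finset.sum_congr rfl fun μ _ => ?_
        rw [← Finset.smul_sum, ← Finset.mul_sum, hE.sum, mul_one, smul_mul_assoc]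
      have e2 : X * (∑ μ ∈ Λ, (f μ : ℂ) • E μ) = ∑ μ ∈ Λ, ∑ ν ∈ Λ, (f ν : ℂ) • (E μ * X * E ν) := by
        rw [Finset.sum_comm, Finset.mul_sum]
        refine Finset.sum_congr rfl fun ν _ => ?_
        rw [← Finset.smul_sum]
        simp_rw [← Finset.sum_mul]
        rw [hE.sum, one_mul, mul_smul_comm]
      rw [e1, e2, ← Finset.sum_sub_distrib]
      refine Finset.sum_congr rfl fun μ _ => ?_
      rw [← Finset.sum_sub_distrib]
      refine Finset.sum_congr rfl fun ν _ => ?_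
      rw [← sub_smul]
      by_cases h0 : E μ = 0
      · rw [h0, zero_mul, zero_mul, smul_zero, smul_zero]
      by_cases h0' : E ν = 0
      · rw [h0', mul_zero, smul_zero, smul_zero]
      rw [hφ μ ν h0 h0']
    rw [h2]
    exact h1

/-- the eigenspaces of the element with moved eigenvalues, if they stay different -/
theorem SD.moved_eig2 {h : Matrix n n ℂ} {E : ℝ → Matrix n n ℂ} {Λ : Finset ℝ} (hE : SD h E Λ) (f : ℝ → ℝ)
    (hinj : ∀ μ ν, E μ ≠ 0 → E ν ≠ 0 → f μ = f ν → μ = ν) {μ : ℝ} (hμ : E μ ≠ 0) :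
    Module.End.eigenspace (Matrix.toLin' (∑ ν ∈ Λ, (f ν : ℂ) • E ν)) (f μ : ℂ) =
      Module.End.eigenspace (Matrix.toLin' h) (μ : ℂ) := by
  classical
  have hE' : ∀ v, v = ∑ ν ∈ Λ, E ν *ᵥ v := by
    intro v
    conv_lhs => rw [← Matrix.one_mulVec v, ← hE.sum, Matrix.sum_mulVec]
  have hmul : ∀ μ', E μ' * (∑ ν ∈ Λ, (f ν : ℂ) • E ν) = (f μ' : ℂ) • E μ' := by
    intro μ'
    rw [Finset.mul_sum]
    by_cases h1 : μ' ∈ Λ
    · rw [Finset.sum_eq_single_of_mem _ h1 fun ν _ hν => by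
        rw [mul_smul_comm, hE.mul, if_neg (Ne.symm hν), smul_zero]]
      rw [mul_smul_comm, hE.mul, if_pos rfl]
    · rw [hE.supp h1, smul_zero]
      exact Finset.sum_eq_zero fun ν _ => by rw [zero_mul]
  have hmul' : (∑ ν ∈ Λ, (f ν : ℂ) • E ν) * E μ = (f μ : ℂ) • E μ := by
    rw [Finset.sum_mul]
    by_cases h1 : μ ∈ Λ
    · rw [Finset.sum_eq_single_of_mem _ h1 fun ν _ hν => by
        rw [smul_mul_assoc, hE.mul, if_neg hν, smul_zero]]
      rw [smul_mul_assoc, hE.mul, if_pos rfl]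
    · exact absurd (hE.supp h1) hμ
  ext v
  rw [Module.End.mem_eigenspace_iff, Module.End.mem_eigenspace_iff, Matrix.toLin'_apply, Matrix.toLin'_apply]
  have key : ∀ (g : Matrix n n ℂ) (c : ℂ), (∀ ν, ν ≠ μ → E ν ≠ 0 → ∃ d : ℂ, d ≠ c ∧ E ν * g = d • E ν) →
      g *ᵥ v = c • v → v = E μ *ᵥ v := by
    intro g c hd hv
    have h1 : ∀ ν, ν ≠ μ → E ν *ᵥ v = 0 := by
      intro ν hν
      by_cases h0 : E ν = 0
      · rw [h0, Matrix.zero_mulVec]
      obtain ⟨d, hdc, hdE⟩ := hd ν hν h0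
      have h2 := congrArg (fun u => E ν *ᵥ u) hv
      simp only [Matrix.mulVec_mulVec, Matrix.mulVec_smul] at h2
      rw [hdE, Matrix.smul_mulVec, ← sub_eq_zero, ← sub_smul] at h2
      exact (smul_eq_zero.1 h2).resolve_left (sub_ne_zero.2 hdc)
    have hμΛ : μ ∈ Λ := by
      by_contra h2
      exact hμ (hE.supp h2)
    conv_lhs => rw [hE' v]
    exact Finset.sum_eq_single_of_mem _ hμΛ fun ν _ hν => h1 ν hν
  constructor
  · intro hv
    have h1 := key _ _ (fun ν hν h0 => ⟨(f ν : ℂ), fun h2 => hν (hinj ν μ h0 hμ (by exact_mod_cast h2)), hmul ν⟩) hv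
    rw [h1, Matrix.mulVec_mulVec, hE.l_mul, Matrix.smul_mulVec]
  · intro hv
    have h1 := key _ _ (fun ν hν h0 => ⟨(ν : ℂ), fun h2 => hν (by exact_mod_cast h2), hE.mul_l ν⟩) hv
    rw [h1, Matrix.mulVec_mulVec, hmul', Matrix.smul_mulVec]

end MH
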